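import Pool.Agent.Lib.MP_e850aa_co.HomGap

set_option autoImplicit false

namespace Pool.Agent.Results.MP_e850aa_co.HomomorphicGap

open Pool.Agent.Lib.MP_e850aa_co

/-- A connected ideal access structure whose matroid is not the matroid of any linear or
homomorphic scheme, not even approximately, and on which every linear or homomorphic scheme,
even with small errors in correctness and privacy, has information ratio at least `1 + c`. -/
theorem result : ∃ (Q : Type) (_ : Fintype Q) (_ : DecidableEq Q) (D : Q) (M : Matroid Q)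
    (G : Set (Finset Q)) (s : Scheme Q) (c : ℝ),
      ConnectedAccess D G ∧ s.Realizes D G ∧ s.IsMatroidOf D M ∧ 0 < c ∧
      ∀ t : Scheme Q, (t.IsHomomorphic ∨ ∃ (K : Type) (_ : Field K), t.IsLinear K) →
        (∀ D' : Q, ¬ t.IsMatroidOf D' M) ∧
        (∀ lam : ℝ, 0 < lam → ∃ X : Finset Q,
          c * lam ≤ |t.H X - lam * ((M.eRk (X : Set Q)).toNat : ℝ)|) ∧
        (0 < t.H {D} →
          (∀ B : Finset Q, D ∉ B → (B ∈ G → t.H (insert D B) - t.H B ≤ c * t.H {D}) ∧
            (B ∉ G → (1 - c) * t.H {D} ≤ t.H (insert D B) - t.H B)) →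
          ∃ i : Q, i ≠ D ∧ (1 + c) * t.H {D} ≤ t.H {i}) :=
  main_gap

end Pool.Agent.Results.MP_e850aa_co.HomomorphicGap
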